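import Pool.Agent.J4H63.IS.Stm
import Pool.Agent.J4H95.SP.T3

set_option autoImplicit false

/-!
# Project IS, piece (AG): the adjacency of the gadget graph is computed by trees of constant depth (helper87)
-/

namespace Pool.Agent.J4H87.IS

open Finset Pool.Agent.J4H64.SS Pool.Agent.J4H95.SP Pool.Agent.J4H87.SP Pool.Agent.J4H63.IS

section

variable {n w : ℕ}

theorem ac_rkeq (hw : 2 ≤ w) (k : ℕ) (hj : ∀ j, j ≤ k → Fintype.card (Fin j → Cl n) ≤ w)
    (hj' : k ≤ w) (l : Fin n × Bool) (c : Cl n) (s : Fin k) :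
    AC w 30 (fun x : Cl n → Bool => rk x l c = s.1) := by
  have hs := s.2
  have e : (fun x : Cl n → Bool => rk x l c = s.1) = fun x => s.1 ≤ rk x l c ∧ ¬ (s.1 + 1 ≤ rk x l c) := by
    funext x
    apply propext
    omega
  rw [e]
  exact mono (ac_and hw (ac_rk hw s.1 (hj _ hs.le) (hs.le.trans hj') l c)
    (AC.neg (ac_rk hw (s.1 + 1) (hj _ hs) (le_trans hs hj') l c))) (by norm_num)

theorem ac_ix (hw : 2 ≤ w) (k : ℕ) (hk : 1 ≤ k) (hj : ∀ j, j ≤ k → Fintype.card (Fin j → Cl n) ≤ w)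
    (hj' : k ≤ w) (l : Fin n × Bool) (c : Cl n) (i : Fin (6 * k)) (p : Fin 3) (b : Bool) :
    AC w 34 (fun x : Cl n → Bool => i = ix k hk (rk x l c) p b) := by
  have e : (fun x : Cl n → Bool => i = ix k hk (rk x l c) p b) = fun x =>
      ∃ j : Fin k, i = ix k hk j.1 p b ∧ min (rk x l c) (k - 1) = j.1 := by
    funext x
    apply propext
    constructor
    · intro h
      refine ⟨⟨min (rk x l c) (k - 1), by omega⟩, ?_, rfl⟩
      rw [h]
      apply Fin.ext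
      simp only [ix]
      omega
    · rintro ⟨j, h1, h2⟩
      rw [h1]
      apply Fin.ext
      simp only [ix, ← h2]
      omega
  rw [e]
  exact mono (ac_ex (by simpa using hj') fun j => ac_cand (d := 28) (ac_min hw k hk hj hj' l c j)) (by norm_num)

theorem ac_Jn (hw : 2 ≤ w) (k : ℕ) (hk : 1 ≤ k) (hj : ∀ j, j ≤ k → Fintype.card (Fin j → Cl n) ≤ w)
    (hj' : k ≤ w) (hC : Fintype.card (Cl n) ≤ w) (l : Fin n × Bool) (s : Fin k) (p : Fin 3) (v : Fin n)
    (i : Fin (6 * k)) (b : Bool) : AC w 50 (fun x : Cl n → Bool => Jn k hk x l s p v i b) := by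
  have e : (fun x : Cl n → Bool => Jn k hk x l s p v i b) = fun x => ∃ c : Cl n,
      (∃ h : c.1.Nonempty, el c h 0 = l ∧ el c h p = (v, !b)) ∧
        (x c = true ∧ (rk x l c = s.1 ∧ i = ix k hk (rk x (v, !b) c) p (!b))) := by
    funext x
    apply propext
    constructor
    · rintro ⟨c, h, h1, h2, h3, h4, h5⟩
      exact ⟨c, ⟨h, h2, h4⟩, h1, h3, h5⟩
    · rintro ⟨c, ⟨h, h2, h4⟩, h1, h3, h5⟩
      exact ⟨c, h, h1, h2, h3, h4, h5⟩
  rw [e]
  exact mono (ac_ex hC fun c => ac_cand (d := 38) (mono (ac_and hw (AC.inp 0 c)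
    (ac_and hw (ac_rkeq hw k hj hj' l c s) (ac_ix hw k hk hj hj' _ c i p _))) (by norm_num))) (by norm_num)

theorem ac_R (hw : 2 ≤ w) (k : ℕ) (hk : 1 ≤ k) (hj : ∀ j, j ≤ k → Fintype.card (Fin j → Cl n) ≤ w)
    (hj' : k ≤ w) (hC : Fintype.card (Cl n) ≤ w) (u v : Vt n k) :
    AC w 60 (fun x : Cl n → Bool => R k hk x u v) := by
  have hf : AC w 1 (fun x : Cl n → Bool => x ⟨∅, by simp⟩ = false) := by
    have e : (fun x : Cl n → Bool => x ⟨∅, by simp⟩ = false) = fun x => ¬ (x ⟨∅, by simp⟩ = true) := by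
      funext x
      simp
    rw [e]
    exact AC.neg (AC.inp 0 _)
  rcases u with ⟨v₁, i₁, b₁⟩ | ⟨l₁, s₁, p₁⟩ <;> rcases v with ⟨v₂, i₂, b₂⟩ | ⟨l₂, s₂, p₂⟩
  · exact ac_cand (d := 58) (mono (ac_or hw (ac_and hw (AC.inp 0 _) (ac_const _))
      (ac_and hw hf (ac_const _))) (by norm_num))
  · exact mono (ac_and hw hf (ac_Jn hw k hk hj hj' hC _ _ _ _ _ _)) (by norm_num)
  · exact mono (ac_and hw hf (ac_Jn hw k hk hj hj' hC _ _ _ _ _ _)) (by norm_num)
  · exact mono (ac_const _) (by norm_num)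

end

theorem t_AG : S_AG := by
  intro k hk
  refine ⟨4 * k + 4, 60, fun n hn u v => ?_⟩
  set N := 2 * n with hN
  have hN2 : 2 ≤ N := by omega
  have hpow : ∀ a, a ≤ 4 * k + 4 → N ^ a ≤ N ^ (4 * k + 4) := fun a ha =>
    Nat.pow_le_pow_right (by omega) ha
  have hw2 : 2 ≤ N ^ (4 * k + 4) := hN2.trans (by simpa using hpow 1 (by omega))
  have hlt : ∀ a, a ≤ N ^ a := fun a => (Nat.lt_pow_self (by omega)).le
  have hkw : k ≤ N ^ (4 * k + 4) := (hlt k).trans (hpow k (by omega))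
  have hCl : Fintype.card (Cl n) ≤ N ^ (4 * k + 4) := (card_Cl_le n hn).trans (hpow 4 (by omega))
  have hfun : ∀ j, j ≤ k → Fintype.card (Fin j → Cl n) ≤ N ^ (4 * k + 4) := by
    intro j hj
    rw [Fintype.card_fun, Fintype.card_fin]
    calc Fintype.card (Cl n) ^ j ≤ (N ^ 4) ^ j := Nat.pow_le_pow_left (card_Cl_le n hn) j
      _ = N ^ (4 * j) := by rw [pow_mul]
      _ ≤ N ^ (4 * k + 4) := hpow _ (by omega)
  exact ac_R hw2 k hk hfun hkw hCl u v

end Pool.Agent.J4H87.IS
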